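import Mathlib
import Pool.Agent.Q277.OddPowG

/-!
Sums of odd powers of binomial coefficients with odd lower entry, modulo `n ^ 2`.
-/

namespace Pool.Agent.Results.MP_32607b_nt.OddPowers

open Finset

/-- `C_{k,m} = ((2k+1)(2m+1)+1)! / ((2k+1)!)^(2m+1)` -/
def Ckm (k m : ℕ) : ℕ :=
  ((2 * k + 1) * (2 * m + 1) + 1).factorial / (2 * k + 1).factorial ^ (2 * m + 1)

/-- `S_{k,m}(n) = ∑_{h<n} C(h,2k+1)^(2m+1)` -/
def Skm (k m n : ℕ) : ℕ := ∑ h ∈ range n, (h.choose (2 * k + 1)) ^ (2 * m + 1)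

theorem exact_div (k m : ℕ) : Ckm k m * (2 * k + 1).factorial ^ (2 * m + 1)
    = ((2 * k + 1) * (2 * m + 1) + 1).factorial := by
  unfold Ckm
  apply Nat.div_mul_cancel
  have h := Nat.prod_factorial_dvd_factorial_sum (range (2 * m + 1)) (fun _ => 2 * k + 1)
  rw [prod_const, card_range, sum_const, card_range, smul_eq_mul, mul_comm (2 * m + 1)] at h
  exact h.trans (Nat.factorial_dvd_factorial (Nat.le_succ _))

/-- For all positive integers `m`, `n`, `k` with `m ≥ k` the number `C_{k,m} S_{k,m}(n)` is divisible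
by `n ^ 2`; here `C_{k,m}` is the exact quotient `((2k+1)(2m+1)+1)! / ((2k+1)!)^(2m+1)`. -/
theorem result : ∀ m n k : ℕ, 1 ≤ m → 1 ≤ n → 1 ≤ k → k ≤ m →
    Ckm k m * (2 * k + 1).factorial ^ (2 * m + 1) = ((2 * k + 1) * (2 * m + 1) + 1).factorial ∧
    n ^ 2 ∣ Ckm k m * Skm k m n := by
  intro m n k _ hn hk hkm
  exact ⟨exact_div k m, Q277.OddPow.main (2 * k + 1) (2 * m + 1) (Ckm k m) ⟨k, rfl⟩ ⟨m, rfl⟩ (by omega)
    (by omega) (exact_div k m) n hn⟩

end Pool.Agent.Results.MP_32607b_nt.OddPowers
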